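import Pool.Agent.Y335.FL.Stm2
import Pool.Agent.TH676.Z.Stm

set_option autoImplicit false

/-!
# Statements for MP_974d84_co, project OD (helper99)

Library: `Pool/Agent/Y335/FL/Ahl.lean` (levels `S G i x y`, numbers `T G i x y`, disjointness
lemmas `disj_C`, `disj_D`, `disj_E`, `count`, Moore bound for irregular graphs `ahl : St_ahl`),
`Pool/Agent/L0h99/BC/Mass.lean` (`T_two`: the levels grow, `not_mem_S`, `rch_of_path`).
Import only these two files (not `Y335/FL/Main`, which has heavy certificates).
-/

namespace Pool.Agent.L0h99.OD

open Finset Pool.Agent.TH676.Z Pool.Agent.Y335.FL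

/-- MAT: a graph with girth at least twelve and degrees at least three (apart from isolated
vertices) has a matching with 63 edges, given by an injective function `f` on a set `P` of 63
vertices.

Proof.  Let `x`, `y` be adjacent.  The six levels `S G i x y`, `S G i y x` are disjoint and have
together at least 126 vertices (`T_two`, `T_zero`, `count`).  By symmetry we may assume that the set
`P'` of the vertices in `S G 1 x y, S G 3 x y, S G 5 x y, S G 0 y x, S G 2 y x, S G 4 y x` (odd
distance from `y`) has at least 63 elements - in fact both colour classes have at least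
`1+4+16 + 2+8+32 = 63` elements.  `P'` is independent: an edge inside would give a circuit with at
most eleven edges.  Choose `P ⊆ P'` with 63 elements.  Hall's condition (Mathlib:
`Finset.all_card_le_biUnion_card_iff_exists_injective`) for the neighbourhoods of the elements of
`P`: otherwise let `X ⊆ P` be a violating set with as few elements as possible, `N` its set of
neighbours, `|N| < |X| ≤ 63`.  By minimality every vertex of `N` has at least two neighbours in `X`.
The bipartite graph `H` on the vertex set `X ∪ N` (a subtype), with the edges of `G` between `X` and
`N`, has degrees at least two, girth at least twelve, at least `3 |X|` edges and at most 125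
vertices; its average degree `d` is at least `6 |X| / (|X| + |N|) > 3`, but `ahl` gives
`|X| + |N| ≥ 2 ((d-1)^0 + ... + (d-1)^5) ≥ 2 * 63 = 126`. -/
def S_MAT : Prop := ∀ (V : Type) [Fintype V] [DecidableEq V] (G : SimpleGraph V)
  [DecidableRel G.Adj], Girth G.Adj 12 → (∀ x y, G.Adj x y → 3 ≤ G.degree x) →
  (∃ x y, G.Adj x y) →
  ∃ (P : Finset V) (f : V → V), P.card = 63 ∧ (∀ x ∈ P, G.Adj x (f x)) ∧
    (∀ x ∈ P, ∀ y ∈ P, x ≠ y → f x ≠ f y) ∧ ∀ x ∈ P, f x ∉ P

/-- CAGE: a cubic multigraph (apart from loops and isolated vertices) with girth at least twelve and
exactly 126 non-isolated vertices has a nowhere-zero `Z_5`-flow.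

Proof.  Let `x`, `y` be adjacent.  In the simple graph `G` with adjacency `Adj src dst` the levels
`S G i x y`, `S G i y x`, `i ≤ 5`, are disjoint and have `2^i` elements, so together they are all
non-isolated vertices.  Let `A` be the union of `S G i x y` with `i` odd and `S G i y x` with `i`
even, and `B` the union of the others.  Two vertices of `A` (of `B`) are not adjacent: they would lie
on a circuit with at most eleven edges.  So the graph is bipartite and cubic; by Hall's theorem
(`Finset.all_card_le_biUnion_card_iff_exists_injective`, counting edges) there is an injective map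
`f : A → B` with `Adj a (f a)`, it is surjective since `|A| = |B| = 63`.  There are no parallel edges
(hypothesis `np`).  The flow has the value `2` (from `A` to `B`) on the edges `a, f a` and `-1` (from
`A` to `B`) on the other proper edges, and the value `1` on the loops. -/
def S_CAGE : Prop := ∀ (V E : Type) [Fintype V] [DecidableEq V] [Fintype E] [DecidableEq E]
  (src dst : E → V), Girth (Adj src dst) 12 →
  (∀ x y, Adj src dst x y → dg src dst x = 3) →
  (∀ (e e' : E) (x y : V), x ≠ y → Jn src dst e x y → Jn src dst e' x y → e = e') →
  (∃ B : Finset V, B.card = 126 ∧ ∀ x, x ∈ B ↔ ∃ y, Adj src dst x y) →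
  FlowOn src dst ∅ ∅

end Pool.Agent.L0h99.OD
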