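import Pool.Agent.Y358.IN.Base
import Pool.Agent.TH676.Z.Cut4
import Pool.Agent.TH676.Z.Three

set_option autoImplicit false
set_option linter.unusedSectionVars false

/-!
# Edge cuts of contraction-minimal counterexamples

In a counterexample to the 5-flow conjecture whose proper contractions have nowhere-zero flows all
edge cuts with at least two vertices on both sides have at least four edges.
-/

namespace Pool.Agent.L0h99.OD

open Finset Pool.Agent.TH676.Z Pool.Agent.Y335.FL Pool.Agent.Y358.IN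

variable {V E : Type} [Fintype V] [DecidableEq V] [Fintype E] [DecidableEq E]

/-- the two flows at a cut -/
theorem sides {src dst : E → V} (h : MinC src dst) (Y : Finset V)
    (h1 : ∃ e, src e ≠ dst e ∧ src e ∈ Y ∧ dst e ∈ Y)
    (h2 : ∃ e, src e ≠ dst e ∧ src e ∉ Y ∧ dst e ∉ Y) :
    ∃ f1 f2 : E → ZMod 5, (∀ v, bd src dst f1 v = 0) ∧ (∀ v, bd src dst f2 v = 0) ∧
      (∀ e, (src e ∈ Y ∨ dst e ∈ Y) → f1 e ≠ 0) ∧
      (∀ e, (src e ∉ Y ∨ dst e ∉ Y) → f2 e ≠ 0) := by
  obtain ⟨f1, a1, _, a3⟩ := h.crit (univ.filter (fun e => src e ∉ Y ∧ dst e ∉ Y)) (by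
    obtain ⟨e, he, he2⟩ := h2
    exact ⟨e, by simpa using he2, he⟩)
  obtain ⟨f2, b1, _, b3⟩ := h.crit (univ.filter (fun e => src e ∈ Y ∧ dst e ∈ Y)) (by
    obtain ⟨e, he, he2⟩ := h1
    exact ⟨e, by simpa using he2, he⟩)
  refine ⟨f1, f2, a1, b1, fun e he => a3 e (notMem_empty _) ?_,
    fun e he => b3 e (notMem_empty _) ?_⟩
  · simp only [mem_filter, mem_univ, true_and]; tauto
  · simp only [mem_filter, mem_univ, true_and]; tauto

/-- every edge cut with non-isolated vertices on both sides has at least three edges -/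
theorem three_le {src dst : E → V} (h : MinC src dst) {Y : Finset V} {x y : V} (hx : x ∈ Y)
    (hy : y ∉ Y) (nx : Nis src dst x) (ny : Nis src dst y) : 3 ≤ (crs src dst Y).card := by
  by_contra hlt
  have h1 : (crs src dst Y).card ≠ 1 := by
    have := h.br Y (disjoint_empty_right _)
    simpa using this
  have h02 : (crs src dst Y).card = 0 ∨ (crs src dst Y).card = 2 := by omega
  rcases h02 with h0 | h2
  · rw [card_eq_zero] at h0
    have hin : ∀ e, (src e ∈ Y ↔ dst e ∈ Y) := by
      intro e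
      by_contra hc
      have := Cut3.mem_crs.mpr hc
      rw [h0] at this
      exact absurd this (notMem_empty _)
    obtain ⟨f1, f2, a1, a2, a3, a4⟩ := sides h Y (by
      obtain ⟨e, he, he2⟩ := nx
      refine ⟨e, he, ?_⟩
      rcases he2 with he2 | he2
      · have : src e ∈ Y := he2 ▸ hx
        exact ⟨this, (hin e).mp this⟩
      · have : dst e ∈ Y := he2 ▸ hx
        exact ⟨(hin e).mpr this, this⟩) (by
      obtain ⟨e, he, he2⟩ := ny
      refine ⟨e, he, ?_⟩
      rcases he2 with he2 | he2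
      · have : src e ∉ Y := he2 ▸ hy
        exact ⟨this, fun hd => this ((hin e).mpr hd)⟩
      · have : dst e ∉ Y := he2 ▸ hy
        exact ⟨fun hd => this ((hin e).mp hd), this⟩)
    refine h.nf (Cut4.glue (Y := Y) (f1 := f1) (f2 := f2)
      (fun v _ => a1 v) (fun v _ => a2 v) a3 (fun e he _ => a4 e (Or.inl he)) ?_)
    intro e he
    rw [h0] at he
    exact absurd he (notMem_empty _)
  · obtain ⟨e1, e2, hne, hY⟩ := card_eq_two.mp h2
    have he1 : e1 ∈ crs src dst Y := by rw [hY]; simp
    obtain ⟨f, hf1, _, hf2⟩ := h.crit {e1} ⟨e1, by simp, fun heq => by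
      rw [Cut3.mem_crs, heq] at he1; exact he1 Iff.rfl⟩
    have hsum := Cut3.sum_cut (src := src) (dst := dst) (f := f) (Y := Y) (fun v _ => hf1 v)
    rw [hY, sum_pair hne] at hsum
    refine h.nf ⟨f, hf1, fun e he => absurd he (notMem_empty _), fun e _ _ => ?_⟩
    by_cases hee : e = e1
    · subst hee
      have h5 : f e2 ≠ 0 := hf2 e2 (notMem_empty _) (by simpa using hne.symm)
      intro h6
      rw [h6] at hsum
      apply h5
      by_cases h7 : src e2 ∈ Y
      · simpa [h7] using hsum
      · simpa [h7] using hsum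
    · exact hf2 e (notMem_empty _) (by simpa using hee)

/-- every edge cut with at least two vertices on both sides has at least four edges -/
theorem four_le {src dst : E → V} (h : MinC src dst) (Y : Finset V) (x x2 y y2 : V) (hx : x ∈ Y)
    (hx2 : x2 ∈ Y) (hxx : x ≠ x2) (hy : y ∉ Y) (hy2 : y2 ∉ Y) (hyy : y ≠ y2)
    (nx : Nis src dst x) (nx2 : Nis src dst x2) (ny : Nis src dst y) (ny2 : Nis src dst y2) :
    4 ≤ (crs src dst Y).card := by
  have cut3 : ∀ (Y : Finset V) (x y : V), x ∈ Y → y ∉ Y → Nis src dst x → Nis src dst y →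
      3 ≤ (crs src dst Y).card := fun Y x y a b c d => three_le h a b c d
  by_contra hlt
  have hc3 : (crs src dst Y).card = 3 := by
    have := cut3 Y x y hx hy nx ny
    omega
  -- a side without proper edges is too small
  have side : ∀ (p p2 : V) (Q : V → Prop), Q p → Q p2 → p ≠ p2 → Nis src dst p → Nis src dst p2 →
      (∀ e, src e ≠ dst e → Q (src e) → ¬ Q (dst e)) →
      (∀ e, (Q (src e) ↔ ¬ Q (dst e)) → e ∈ crs src dst Y) → False := by
    intro p p2 Q hp hp2 hpp np np2 hQ hQ2
    have c1 : 3 ≤ (crs src dst {p}).card :=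
      cut3 {p} p p2 (mem_singleton_self _) (by simpa using hpp.symm) np np2
    have c2 : 3 ≤ (crs src dst {p2}).card :=
      cut3 {p2} p2 p (mem_singleton_self _) (by simpa using hpp) np2 np
    have hsub : ∀ q, Q q → ∀ e ∈ crs src dst {q}, e ∈ crs src dst Y ∧
        (src e ≠ dst e) ∧ ((src e = q ∧ ¬ Q (dst e)) ∨ (dst e = q ∧ ¬ Q (src e))) := by
      intro q hq e he
      rw [Cut3.mem_crs, mem_singleton, mem_singleton] at he
      have hne : src e ≠ dst e := fun heq => he (by rw [heq])
      by_cases hs : src e = q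
      · have h5 : Q (src e) := hs ▸ hq
        have h6 := hQ e hne h5
        exact ⟨hQ2 e ⟨fun _ => h6, fun _ => h5⟩, hne, Or.inl ⟨hs, h6⟩⟩
      · have hd : dst e = q := by tauto
        have h5 : Q (dst e) := hd ▸ hq
        have h6 : ¬ Q (src e) := fun h6 => hQ e hne h6 h5
        exact ⟨hQ2 e ⟨fun h7 => absurd h7 h6, fun h7 => absurd h5 h7⟩, hne, Or.inr ⟨hd, h6⟩⟩
    have hdis : Disjoint (crs src dst {p}) (crs src dst {p2}) := by
      rw [disjoint_left]
      intro e he he2
      obtain ⟨_, _, h5⟩ := hsub p hp e he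
      obtain ⟨_, _, h6⟩ := hsub p2 hp2 e he2
      rcases h5 with ⟨a1, a2⟩ | ⟨a1, a2⟩ <;> rcases h6 with ⟨b1, b2⟩ | ⟨b1, b2⟩
      · exact hpp (a1.symm.trans b1)
      · exact a2 (b1 ▸ hp2)
      · exact b2 (a1 ▸ hp)
      · exact hpp (a1.symm.trans b1)
    have hle : (crs src dst {p} ∪ crs src dst {p2}).card ≤ (crs src dst Y).card :=
      card_le_card (union_subset (fun e he => (hsub p hp e he).1)
        (fun e he => (hsub p2 hp2 e he).1))
    rw [card_union_of_disjoint hdis] at hle
    omega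
  obtain ⟨f1, f2, a1, a2, a3, a4⟩ := sides h Y (by
    by_contra hc
    push Not at hc
    exact side x x2 (fun z => z ∈ Y) hx hx2 hxx nx nx2 hc (fun e he => Cut3.mem_crs.mpr (by tauto)))
    (by
    by_contra hc
    push Not at hc
    exact side y y2 (fun z => z ∉ Y) hy hy2 hyy ny ny2 (fun e he h5 => by
      rw [not_not]; exact hc e he h5) (fun e he => Cut3.mem_crs.mpr (by tauto)))
  obtain ⟨f', b1, b2, b3⟩ := three V E src dst Y hc3 f1 (fun v _ => a1 v) a3 f2 (fun e he => by
    rw [Cut3.mem_crs] at he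
    exact a4 e (by tauto)) (Cut3.sum_cut fun v _ => a2 v)
  exact h.nf (Cut4.glue b1 (fun v _ => a2 v) b2 (fun e he _ => a4 e (Or.inl he)) b3)

end Pool.Agent.L0h99.OD
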