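import Pool.Agent.L0h83.OD.MAT
import Pool.Agent.Y358.IN.Ind

set_option autoImplicit false
set_option linter.unusedSectionVars false

/-!
# Independent sets which can be matched into their neighbourhood

The class of the graphs without large independent sets (of vertices of degree at least three outside
a set `S`) which can be matched into their neighbourhood is closed under contractions.
-/

namespace Pool.Agent.L0h99.OD

open Finset Pool.Agent.TH676.Z Pool.Agent.Y335.FL Pool.Agent.Y358.IN

section

variable {V E : Type} [Fintype V] [DecidableEq V] [Fintype E] [DecidableEq E]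

/-- the class -/
def Hm (src dst : E → V) : Prop := ∃ S : Finset V, ∀ (I : Finset V) (m : V → V),
  (∀ x ∈ I, x ∉ S) → (∀ x ∈ I, 3 ≤ dg src dst x) → (∀ x ∈ I, ∀ y ∈ I, ¬ Adj src dst x y) →
  (∀ x ∈ I, Adj src dst x (m x)) → (∀ x ∈ I, ∀ y ∈ I, m x = m y → x = y) →
    2 * I.card + S.card ≤ 125

/-- lifting adjacencies -/
theorem lift_adj {src dst : E → V} {u v a b : V}
    (h : Adj (ctr u v ∘ src) (ctr u v ∘ dst) a b) :
    ∃ a0 b0, ctr u v a0 = a ∧ ctr u v b0 = b ∧ Adj src dst a0 b0 := by
  obtain ⟨hab, e, he⟩ := h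
  rcases he with ⟨h1, h2⟩ | ⟨h1, h2⟩
  · exact ⟨src e, dst e, h1, h2, fun h => hab (by
      rw [← h1, ← h2]; simp only [Function.comp, h]), e, Or.inl ⟨rfl, rfl⟩⟩
  · exact ⟨dst e, src e, h2, h1, fun h => hab (by
      rw [← h1, ← h2]; simp only [Function.comp, h]), e, Or.inr ⟨rfl, rfl⟩⟩

theorem of_ctr_eq {u v x z : V} (hxu : x ≠ u) (h : ctr u v z = x) : z = x := by
  by_cases hz : z = v
  · rw [hz, ctr_v] at h
    exact absurd h.symm hxu
  · rw [ctr_of_ne hz] at h
    exact h

theorem ccHm : CC (V := V) (E := E) Hm := by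
  classical
  intro src dst e h hne
  obtain ⟨S, hS⟩ := h
  set u := src e with hu
  set v := dst e with hv
  have huv : Adj src dst u v := ⟨hne, e, Or.inl ⟨rfl, rfl⟩⟩
  refine ⟨S.image (ctr u v), ?_⟩
  intro I m hIS hdg hind hm hinj
  have hvI : v ∉ I := by
    intro h
    have h1 := hdg v h
    rw [Ord.dg_ctr_v src dst hne] at h1
    omega
  have hxS : ∀ x ∈ I, x ∉ S := by
    intro x hx hxS
    apply hIS x hx
    have : x ≠ v := fun h => hvI (h ▸ hx)
    exact mem_image.2 ⟨x, hxS, ctr_of_ne this⟩
  have hcard : (S.image (ctr u v)).card ≤ S.card := card_image_le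
  -- the lifted partners
  have hl : ∀ x, ∃ y, x ∈ I → x ≠ u → ctr u v y = m x ∧ Adj src dst x y := by
    intro x
    by_cases hx : x ∈ I
    · by_cases hxu : x = u
      · exact ⟨x, fun _ h => absurd hxu h⟩
      · obtain ⟨a0, b0, h1, h2, h3⟩ := lift_adj (hm x hx)
        have h4 : a0 = x := of_ctr_eq hxu h1
        exact ⟨b0, fun _ _ => ⟨h2, h4 ▸ h3⟩⟩
    · exact ⟨x, fun h => absurd h hx⟩
  choose m0 hm0 using hl
  have hinj0 : ∀ x ∈ I, ∀ y ∈ I, x ≠ u → y ≠ u → m0 x = m0 y → x = y := by
    intro x hx y hy hxu hyu h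
    apply hinj x hx y hy
    rw [← (hm0 x hx hxu).1, ← (hm0 y hy hyu).1, h]
  by_cases huI : u ∈ I
  · have h2 : dg (ctr u v ∘ src) (ctr u v ∘ dst) u + 2 ≤ dg src dst u + dg src dst v :=
      Ord.dg_ctr_u src dst e hne
    have h3 := hdg u huI
    obtain ⟨w, yw, hw, hwd, hwy, hyw⟩ : ∃ w yw, (w = u ∨ w = v) ∧ 3 ≤ dg src dst w ∧
        Adj src dst w yw ∧ (ctr u v yw = m u ∨ ctr u v yw = u) := by
      obtain ⟨a0, b0, h1, h4, h5⟩ := lift_adj (hm u huI)
      have ha : a0 = u ∨ a0 = v := by
        by_cases h : a0 = v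
        · exact Or.inr h
        · rw [ctr_of_ne h] at h1
          exact Or.inl h1
      by_cases h6 : 3 ≤ dg src dst a0
      · exact ⟨a0, b0, ha, h6, h5, Or.inl h4⟩
      · rcases ha with rfl | rfl
        · exact ⟨v, _, Or.inr rfl, by omega, GiAux.adj_symm huv, Or.inr (ctr_u _ _ hne)⟩
        · exact ⟨u, _, Or.inl rfl, by omega, huv, Or.inr (ctr_v _ _)⟩
    have hcw : ctr u v w = u := by
      rcases hw with rfl | rfl
      · exact ctr_u _ _ hne
      · exact ctr_v _ _
    have hwS : w ∉ S := fun h => hIS u huI (mem_image.2 ⟨w, h, hcw⟩)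
    have hwI : w ∉ I.erase u := by
      rcases hw with h | h
      · rw [h]
        exact fun h => (mem_erase.1 h).1 rfl
      · rw [h]
        exact fun h => hvI (mem_of_mem_erase h)
    have hwx : ∀ x ∈ I.erase u, ¬ Adj src dst w x := by
      intro x hx hadj
      have hxI := mem_of_mem_erase hx
      have hxu : x ≠ u := (mem_erase.1 hx).1
      have hxv : x ≠ v := fun h => hvI (h ▸ hxI)
      have h5 := adj_ctr (u := u) (v := v) hadj (by
        rw [hcw, ctr_of_ne hxv]
        exact hxu.symm)
      rw [hcw, ctr_of_ne hxv] at h5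
      exact hind u huI x hxI h5
    -- the partner of `w` is new
    have hyx : ∀ x ∈ I.erase u, m0 x ≠ yw := by
      intro x hx h
      have hxI := mem_of_mem_erase hx
      have hxu : x ≠ u := (mem_erase.1 hx).1
      have h5 := (hm0 x hxI hxu).1
      rw [h] at h5
      rcases hyw with h6 | h6
      · exact hxu (hinj x hxI u huI (h5.symm.trans h6))
      · have h7 := hm x hxI
        rw [← h5, h6] at h7
        exact hind x hxI u huI h7
    have hne_w : ∀ x ∈ I.erase u, x ≠ w := fun x hx h => hwI (h ▸ hx)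
    have h6 := hS (insert w (I.erase u)) (fun x => if x = w then yw else m0 x) ?_ ?_ ?_ ?_ ?_
    · rw [card_insert_of_notMem hwI, card_erase_of_mem huI] at h6
      have h7 : 0 < I.card := card_pos.2 ⟨u, huI⟩
      omega
    · intro x hx
      rcases mem_insert.1 hx with rfl | hx
      · exact hwS
      · exact hxS x (mem_of_mem_erase hx)
    · intro x hx
      rcases mem_insert.1 hx with rfl | hx
      · exact hwd
      · exact (hdg x (mem_of_mem_erase hx)).trans
          (Ord.dg_ctr_other src dst (mem_erase.1 hx).1)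
    · intro x hx y hy hadj
      rcases mem_insert.1 hx with hx | hx <;> rcases mem_insert.1 hy with hy | hy
      · exact hadj.1 (hx.trans hy.symm)
      · rw [hx] at hadj
        exact hwx y hy hadj
      · rw [hy] at hadj
        exact hwx x hx (GiAux.adj_symm hadj)
      · have hx' := mem_of_mem_erase hx
        have hy' := mem_of_mem_erase hy
        have hxv : x ≠ v := fun h => hvI (h ▸ hx')
        have hyv : y ≠ v := fun h => hvI (h ▸ hy')
        have h5 := adj_ctr (u := u) (v := v) hadj (by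
          rw [ctr_of_ne hxv, ctr_of_ne hyv]
          exact hadj.1)
        rw [ctr_of_ne hxv, ctr_of_ne hyv] at h5
        exact hind x hx' y hy' h5
    · intro x hx
      beta_reduce
      rcases mem_insert.1 hx with hx | hx
      · rw [if_pos hx, hx]
        exact hwy
      · rw [if_neg (hne_w x hx)]
        exact (hm0 x (mem_of_mem_erase hx) (mem_erase.1 hx).1).2
    · intro x hx y hy hxy
      beta_reduce at hxy
      rcases mem_insert.1 hx with hx | hx <;> rcases mem_insert.1 hy with hy | hy
      · exact hx.trans hy.symm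
      · rw [if_pos hx, if_neg (hne_w y hy)] at hxy
        exact absurd hxy.symm (hyx y hy)
      · rw [if_pos hy, if_neg (hne_w x hx)] at hxy
        exact absurd hxy (hyx x hx)
      · rw [if_neg (hne_w x hx), if_neg (hne_w y hy)] at hxy
        exact hinj0 x (mem_of_mem_erase hx) y (mem_of_mem_erase hy) (mem_erase.1 hx).1
          (mem_erase.1 hy).1 hxy
  · have hxu : ∀ x ∈ I, x ≠ u := fun x hx h => huI (h ▸ hx)
    have h6 := hS I m0 hxS ?_ ?_ (fun x hx => (hm0 x hx (hxu x hx)).2)
      (fun x hx y hy h => hinj0 x hx y hy (hxu x hx) (hxu y hy) h)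
    · omega
    · intro x hx
      exact (hdg x hx).trans (Ord.dg_ctr_other src dst (hxu x hx))
    · intro x hx y hy hadj
      have hxv : x ≠ v := fun h => hvI (h ▸ hx)
      have hyv : y ≠ v := fun h => hvI (h ▸ hy)
      have h5 := adj_ctr (u := u) (v := v) hadj (by
        rw [ctr_of_ne hxv, ctr_of_ne hyv]
        exact hadj.1)
      rw [ctr_of_ne hxv, ctr_of_ne hyv] at h5
      exact hind x hx y hy h5

/-- **Main step.** -/
theorem flow_of_Hm (hc : St_contract) {src dst : E → V} (hcl : Hm src dst)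
    (hbr : Br src dst ∅ ∅) : FlowOn src dst ∅ ∅ := by
  classical
  by_contra hn
  obtain ⟨s, d, ⟨S, hS⟩, hM⟩ := exists_minC ccHm src dst hcl hbr hn
  have ht := threeC hc hM
  have hgi := girthC hc hM
  by_cases hl : ∀ e, s e = d e
  · exact hM.nf (flow_of_loops hl)
  push Not at hl
  obtain ⟨e, he⟩ := hl
  let G : SimpleGraph V :=
    { Adj := Adj s d
      symm := ⟨fun a b h => GiAux.adj_symm h⟩
      loopless := ⟨fun a h => h.1 rfl⟩ }
  have hg : Girth G.Adj 12 := hgi
  have hd : ∀ a b, G.Adj a b → 3 ≤ G.degree a := by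
    intro a b hab
    obtain ⟨z1, z2, z3, a1, a2, a3, n1, n2, n3⟩ := ht a b hab
    rw [← G.card_neighborFinset_eq_degree]
    have h4 : ({z1, z2, z3} : Finset V) ⊆ G.neighborFinset a := by
      intro w hw
      rw [G.mem_neighborFinset]
      simp only [mem_insert, mem_singleton] at hw
      rcases hw with rfl | rfl | rfl
      · exact a1
      · exact a2
      · exact a3
    calc 3 = ({z1, z2, z3} : Finset V).card := by
          rw [card_insert_of_notMem (by simp [n1, n2]), card_pair n3]
      _ ≤ _ := card_le_card h4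
  have hxy : G.Adj (s e) (d e) := ⟨he, e, Or.inl ⟨rfl, rfl⟩⟩
  have hS0 : S.card ≤ 125 := by
    have := hS ∅ id (by simp) (by simp) (by simp) (by simp) (by simp)
    omega
  -- for independent sets with at most 63 elements Hall's condition holds
  have key : ∀ x y : V, G.Adj x y → 2 * (Pool.Agent.L0h83.OD.AA G x y \ S).card + S.card ≤ 125 := by
    intro x y hxy
    by_contra hcon
    obtain ⟨P, hPs, hP⟩ : ∃ P ⊆ Pool.Agent.L0h83.OD.AA G x y \ S,
        P.card = min 63 (Pool.Agent.L0h83.OD.AA G x y \ S).card :=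
      exists_subset_card_eq (min_le_right _ _)
    have hPA : ∀ a ∈ P, a ∈ Pool.Agent.L0h83.OD.AA G x y := fun a ha => (mem_sdiff.1 (hPs ha)).1
    have hind : ∀ a ∈ P, ∀ b ∈ P, ¬ G.Adj a b := fun a ha b hb =>
      Pool.Agent.L0h83.OD.AA_indep hg (hPA a ha) (hPA b hb)
    have hnis : ∀ a ∈ P, ∃ b, G.Adj a b := fun a ha => Pool.Agent.L0h83.OD.AA_nis (hPA a ha)
    have hH := Pool.Agent.L0h83.OD.hall G hg hd P (by rw [hP]; exact min_le_left _ _) hnis hind
    have hcond : ∀ s : Finset {a // a ∈ P},
        s.card ≤ (s.biUnion (fun a => G.neighborFinset a.1)).card := by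
      intro s
      have h1 : (s.map (Function.Embedding.subtype (fun a => a ∈ P))).card = s.card := card_map _
      have h2 : s.map (Function.Embedding.subtype (fun a => a ∈ P)) ⊆ P := by
        intro a ha
        rw [mem_map] at ha
        obtain ⟨b, _, rfl⟩ := ha
        exact b.2
      have h3 := hH _ _ rfl h2
      rw [h1] at h3
      refine h3.trans (card_le_card ?_)
      intro u hu
      obtain ⟨z, hz, hzu⟩ := Pool.Agent.L0h83.OD.mem_Nb.1 hu
      rw [mem_map] at hz
      obtain ⟨b, hb, rfl⟩ := hz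
      exact mem_biUnion.2 ⟨b, hb, (G.mem_neighborFinset _ _).2 hzu⟩
    obtain ⟨f, hf1, hf2⟩ := (all_card_le_biUnion_card_iff_exists_injective
      (fun a : {a // a ∈ P} => G.neighborFinset a.1)).1 hcond
    have hf : ∀ a (ha : a ∈ P), G.Adj a (f ⟨a, ha⟩) := fun a ha =>
      (G.mem_neighborFinset _ _).1 (hf2 ⟨a, ha⟩)
    have h5 := hS P (fun a => if ha : a ∈ P then f ⟨a, ha⟩ else a)
      (fun a ha => (mem_sdiff.1 (hPs ha)).2)
      (fun a ha => by
        obtain ⟨z, hz⟩ := hnis a ha
        exact Ord.three_dg ht hz)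
      hind
      (fun a ha => by
        beta_reduce
        rw [dif_pos ha]
        exact hf a ha)
      (fun a ha b hb h => by
        beta_reduce at h
        rw [dif_pos ha, dif_pos hb] at h
        exact congrArg Subtype.val (hf1 h))
    omega
  have k1 := key _ _ hxy
  have k2 := key _ _ hxy.symm
  have c1 := Pool.Agent.L0h83.OD.AA_card hg hd hxy
  have c2 := Pool.Agent.L0h83.OD.AA_card hg hd hxy.symm
  have c3 := card_union_of_disjoint (Pool.Agent.L0h83.OD.AA_disj hg hxy)
  have k3 : (Pool.Agent.L0h83.OD.AA G (s e) (d e) ∪ Pool.Agent.L0h83.OD.AA G (d e) (s e)).card ≤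
      (Pool.Agent.L0h83.OD.AA G (s e) (d e) \ S).card +
      (Pool.Agent.L0h83.OD.AA G (d e) (s e) \ S).card + S.card := by
    have h4 : Pool.Agent.L0h83.OD.AA G (s e) (d e) ∪ Pool.Agent.L0h83.OD.AA G (d e) (s e) ⊆
        (Pool.Agent.L0h83.OD.AA G (s e) (d e) \ S) ∪
        (Pool.Agent.L0h83.OD.AA G (d e) (s e) \ S) ∪ S := by
      intro v hv
      by_cases hvS : v ∈ S
      · exact mem_union_right _ hvS
      · refine mem_union_left _ ?_
        rcases mem_union.1 hv with h | h
        · exact mem_union_left _ (mem_sdiff.2 ⟨h, hvS⟩)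
        · exact mem_union_right _ (mem_sdiff.2 ⟨h, hvS⟩)
    exact (card_le_card h4).trans ((card_union_le _ _).trans
      (Nat.add_le_add_right (card_union_le _ _) _))
  omega

end

end Pool.Agent.L0h99.OD
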