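import Pool.Agent.L0h99.OD.Spl
import Pool.Agent.L0h99.OD.Stm

set_option autoImplicit false
set_option linter.unusedSectionVars false

/-!
# Bridgeless graphs with at most 126 vertices of odd degree
-/

namespace Pool.Agent.L0h99.OD

open Finset Pool.Agent.TH676.Z Pool.Agent.Y335.FL Pool.Agent.Y358.IN

section

variable {V E : Type} [Fintype V] [DecidableEq V] [Fintype E] [DecidableEq E]

/-- the vertices of odd degree -/
def Od (src dst : E → V) : Finset V := univ.filter (fun v => dg src dst v % 2 = 1)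

theorem mem_Od {src dst : E → V} {v : V} : v ∈ Od src dst ↔ dg src dst v % 2 = 1 := by
  simp [Od]

/-- contractions do not increase the number of the vertices of odd degree -/
theorem od_ctr (src dst : E → V) (e : E) (hne : src e ≠ dst e) :
    (Od (ctr (src e) (dst e) ∘ src) (ctr (src e) (dst e) ∘ dst)).card ≤ (Od src dst).card := by
  set u := src e with hu
  set v := dst e with hv
  have h0 : v ∉ Od (ctr u v ∘ src) (ctr u v ∘ dst) := by
    rw [mem_Od, Ord.dg_ctr_v src dst hne]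
    omega
  have h1 : ∀ w, w ≠ u → w ≠ v → (w ∈ Od (ctr u v ∘ src) (ctr u v ∘ dst) ↔ w ∈ Od src dst) := by
    intro w hwu hwv
    rw [mem_Od, mem_Od, dg_ctr_eq src dst hwu hwv]
  have h2 := dg_ctr_parity src dst hne
  by_cases hu' : u ∈ Od (ctr u v ∘ src) (ctr u v ∘ dst)
  · rw [mem_Od, h2] at hu'
    by_cases h3 : u ∈ Od src dst
    · refine card_le_card fun w hw => ?_
      by_cases hwu : w = u
      · rw [hwu]; exact h3
      · exact (h1 w hwu (fun h => h0 (h ▸ hw))).1 hw
    · have h4 : v ∈ Od src dst := by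
        rw [mem_Od] at h3 ⊢
        omega
      have h5 : Od (ctr u v ∘ src) (ctr u v ∘ dst) ⊆ insert u ((Od src dst).erase v) := by
        intro w hw
        by_cases hwu : w = u
        · rw [hwu]; exact mem_insert_self _ _
        · have hwv : w ≠ v := fun h => h0 (h ▸ hw)
          exact mem_insert_of_mem (mem_erase.2 ⟨hwv, (h1 w hwu hwv).1 hw⟩)
      have h6 := (card_le_card h5).trans (card_insert_le _ _)
      rw [card_erase_of_mem h4] at h6
      have h7 : 0 < (Od src dst).card := card_pos.2 ⟨_, h4⟩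
      omega
  · refine card_le_card fun w hw => ?_
    have hwu : w ≠ u := fun h => hu' (h ▸ hw)
    exact (h1 w hwu (fun h => h0 (h ▸ hw))).1 hw

theorem crs_compl (src dst : E → V) (Y : Finset V) : crs src dst Yᶜ = crs src dst Y := by
  ext e
  rw [Cut3.mem_crs, Cut3.mem_crs, mem_compl, mem_compl]
  tauto

theorem nis_of_adj {src dst : E → V} {x y : V} (h : Adj src dst x y) : Nis src dst x := by
  obtain ⟨hne, e, he⟩ := h
  rcases he with ⟨a, b⟩ | ⟨a, b⟩
  · exact ⟨e, by rw [a, b]; exact hne, Or.inl a⟩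
  · exact ⟨e, by rw [a, b]; exact hne.symm, Or.inr b⟩

theorem adj_of_nis {src dst : E → V} {x : V} (h : Nis src dst x) : ∃ y, Adj src dst x y := by
  obtain ⟨e, hne, he⟩ := h
  rcases he with he | he
  · exact ⟨dst e, by rw [← he]; exact ⟨hne, e, Or.inl ⟨rfl, rfl⟩⟩⟩
  · exact ⟨src e, by rw [← he]; exact ⟨hne.symm, e, Or.inr ⟨rfl, rfl⟩⟩⟩

/-- the splitting has no bridge -/
theorem br_split {src dst : E → V} {e1 e2 : E} {x u1 u2 : V} (hM : MinC src dst)
    (h : Sp src dst e1 e2 x u1 u2) (hx : 4 ≤ dg src dst x) :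
    Br (s' src e1 e2 x u1) (d' dst e1 e2 x u2) ∅ ∅ := by
  intro Y _
  rw [sdiff_empty]
  intro h1
  have hbr : (crs src dst Y).card ≠ 1 := by
    have := hM.br Y (disjoint_empty_right _)
    rwa [sdiff_empty] at this
  rcases crs_split h Y with h2 | ⟨h2, h3, h4⟩
  · rw [h1] at h2
    exact hbr h2.symm
  · have h5 : (crs src dst Y).card = 3 := by omega
    have n1 : Nis src dst u1 := nis_of_adj ⟨h.x1.symm, e1, h.j1.symm⟩
    have n2 : Nis src dst u2 := nis_of_adj ⟨h.x2.symm, e2, h.j2.symm⟩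
    have nx : Nis src dst x := nis_of_adj ⟨h.x1, e1, h.j1⟩
    -- we may assume that `x` is in `Z` and `u1`, `u2` are not
    obtain ⟨Z, hZ, xZ, u1Z, u2Z⟩ : ∃ Z : Finset V, (crs src dst Z).card = 3 ∧ x ∈ Z ∧ u1 ∉ Z ∧
        u2 ∉ Z := by
      by_cases hxY : x ∈ Y
      · exact ⟨Y, h5, hxY, by tauto, by tauto⟩
      · refine ⟨Yᶜ, by rw [crs_compl]; exact h5, mem_compl.2 hxY, ?_, ?_⟩
        · rw [mem_compl, not_not]; tauto
        · rw [mem_compl, not_not]; tauto
    by_cases h6 : ∃ y, y ∈ Z ∧ y ≠ x ∧ Nis src dst y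
    · obtain ⟨y, hy, hyx, ny⟩ := h6
      have := four_le hM Z x y u1 u2 xZ hy hyx.symm u1Z u2Z h.u12 nx ny n1 n2
      omega
    · push Not at h6
      have h7 : Ord.sg src dst x ⊆ crs src dst Z := by
        intro e he
        rw [Ord.mem_sg] at he
        rw [Cut3.mem_crs]
        rcases he.2 with h8 | h8
        · have h9 : dst e ∉ Z := fun h9 => h6 (dst e) h9 (fun h10 => he.1 (h8.trans h10.symm))
            ⟨e, he.1, Or.inr rfl⟩
          rw [h8]
          tauto
        · have h9 : src e ∉ Z := fun h9 => h6 (src e) h9 (fun h10 => he.1 (h10.trans h8.symm))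
            ⟨e, he.1, Or.inl rfl⟩
          rw [h8]
          tauto
      have h8 := card_le_card h7
      rw [← Ord.dg_eq] at h8
      omega

/-- **Main step.** -/
theorem flow_of_odd (hc : St_contract) (hcage : S_CAGE) (src dst : E → V)
    (hodd : (Od src dst).card ≤ 126) (hbr : Br src dst ∅ ∅) : FlowOn src dst ∅ ∅ := by
  classical
  by_contra hn
  have hex : ∃ m, ∃ s d : E → V, (Od s d).card ≤ 126 ∧ Br s d ∅ ∅ ∧ ¬ FlowOn s d ∅ ∅ ∧
      (Crit.nl s d).card = m := ⟨_, src, dst, hodd, hbr, hn, rfl⟩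
  obtain ⟨s0, d0, o1, o2, o3, o4⟩ := Nat.find_spec hex
  set m0 := Nat.find hex with hm0
  have hCC : CC (V := V) (E := E)
      (fun s d => (Od s d).card ≤ 126 ∧ (Crit.nl s d).card ≤ m0) := by
    intro s d e h hne
    exact ⟨(od_ctr s d e hne).trans h.1, (card_le_card (Crit.nl_ctr_sub _ _)).trans h.2⟩
  obtain ⟨s, d, ⟨hs1, hs2⟩, hM⟩ := exists_minC hCC s0 d0 ⟨o1, o4.le⟩ o2 o3
  have h3 := threeC hc hM
  have hgi := girthC hc hM
  -- all degrees are three
  have hdeg : ∀ x y, Adj s d x y → dg s d x = 3 := by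
    intro x y hxy
    by_contra hcon
    have h4 : 4 ≤ dg s d x := by
      have := Ord.three_dg h3 hxy
      omega
    obtain ⟨a, b, c, ⟨ha, ea, ja⟩, ⟨hb, eb, jb⟩, _, hab, _, _⟩ := h3 x y hxy
    have hne : ea ≠ eb := by
      rintro rfl
      rcases ja with ⟨p, q⟩ | ⟨p, q⟩ <;> rcases jb with ⟨p', q'⟩ | ⟨p', q'⟩
      · exact hab (q.symm.trans q')
      · exact hb (p.symm.trans p')
      · exact hb (q.symm.trans q')
      · exact hab (p.symm.trans p')
    have hsp : Sp s d ea eb x a b := ⟨hne, ha, hb, hab, ja, jb⟩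
    have h5 := nl_split hsp
    have h6 : (Od (s' s ea eb x a) (d' d ea eb x b)).card ≤ 126 := by
      refine le_trans (card_le_card fun v hv => ?_) hs1
      rw [mem_Od] at hv ⊢
      have h7 := dg_split hsp v
      split_ifs at h7 <;> omega
    have h7 : FlowOn (s' s ea eb x a) (d' d ea eb x b) ∅ ∅ := by
      by_contra h8
      exact Nat.find_min hex (lt_of_lt_of_le h5 hs2) ⟨_, _, h6, br_split hM hsp h4, h8, rfl⟩
    exact hM.nf (flow_back hsp h7)
  by_cases hl : ∀ e, s e = d e
  · exact hM.nf (flow_of_loops hl)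
  push Not at hl
  obtain ⟨e, he⟩ := hl
  have h1 := moore V (Adj s d) (fun a b h => GiAux.adj_symm h) (fun a h => h.1 rfl) hgi h3
    ⟨s e, d e, he, e, Or.inl ⟨rfl, rfl⟩⟩
  set B : Finset V := univ.filter (fun v => ∃ y, Adj s d v y) with hB
  have h2 : B ⊆ Od s d := by
    intro v hv
    obtain ⟨_, y, hy⟩ := mem_filter.1 hv
    rw [mem_Od, hdeg v y hy]
  have h4 := card_le_card h2
  have h5 : B.card = 126 := by omega
  refine hM.nf (hcage V E s d hgi hdeg (fun e e' x y hxy j j' => no_par hc hM hxy j j')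
    ⟨B, h5, fun x => by rw [hB, mem_filter]; simp⟩)

end

end Pool.Agent.L0h99.OD
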