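import Pool.Agent.L0h99.OD.Stm
import Pool.Agent.Y358.IN.Ind

set_option autoImplicit false
set_option linter.unusedSectionVars false

/-!
# Bridgeless graphs without 63 disjoint edges
-/

namespace Pool.Agent.L0h99.OD

open Finset Pool.Agent.TH676.Z Pool.Agent.Y335.FL Pool.Agent.Y358.IN

section

variable {V E : Type} [Fintype V] [DecidableEq V] [Fintype E] [DecidableEq E]

/-- a matching: proper edges, pairwise without common ends -/
def IsMat (src dst : E → V) (F : Finset E) : Prop :=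
  (∀ e ∈ F, src e ≠ dst e) ∧ ∀ e ∈ F, ∀ e' ∈ F, e ≠ e' →
    src e ≠ src e' ∧ src e ≠ dst e' ∧ dst e ≠ src e' ∧ dst e ≠ dst e'

/-- the class -/
def Mt (src dst : E → V) : Prop := ∀ F : Finset E, IsMat src dst F → F.card ≤ 62

theorem ccMt : CC (V := V) (E := E) Mt := by
  intro src dst e h hne F hF
  refine h F ⟨fun a ha heq => hF.1 a ha (by simp only [Function.comp, heq]),
    fun a ha b hb hab => ?_⟩
  obtain ⟨h1, h2, h3, h4⟩ := hF.2 a ha b hb hab
  exact ⟨fun heq => h1 (by simp only [Function.comp, heq]),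
    fun heq => h2 (by simp only [Function.comp, heq]),
    fun heq => h3 (by simp only [Function.comp, heq]),
    fun heq => h4 (by simp only [Function.comp, heq])⟩

/-- **Main step.** -/
theorem flow_of_Mt (hc : St_contract) (hmat : S_MAT) {src dst : E → V} (hcl : Mt src dst)
    (hbr : Br src dst ∅ ∅) : FlowOn src dst ∅ ∅ := by
  classical
  by_contra hn
  obtain ⟨s, d, h1, hM⟩ := exists_minC ccMt src dst hcl hbr hn
  have ht := threeC hc hM
  have hgi := girthC hc hM
  by_cases hl : ∀ e, s e = d e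
  · exact hM.nf (flow_of_loops hl)
  push Not at hl
  obtain ⟨e, he⟩ := hl
  let G : SimpleGraph V :=
    { Adj := Adj s d
      symm := ⟨fun a b h => GiAux.adj_symm h⟩
      loopless := ⟨fun a h => h.1 rfl⟩ }
  have hg : Girth G.Adj 12 := hgi
  have hd : ∀ a b, G.Adj a b → 3 ≤ G.degree a := by
    intro a b hab
    obtain ⟨z1, z2, z3, a1, a2, a3, n1, n2, n3⟩ := ht a b hab
    rw [← G.card_neighborFinset_eq_degree]
    have h4 : ({z1, z2, z3} : Finset V) ⊆ G.neighborFinset a := by
      intro w hw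
      rw [G.mem_neighborFinset]
      simp only [mem_insert, mem_singleton] at hw
      rcases hw with rfl | rfl | rfl
      · exact a1
      · exact a2
      · exact a3
    calc 3 = ({z1, z2, z3} : Finset V).card := by
          rw [card_insert_of_notMem (by simp [n1, n2]), card_pair n3]
      _ ≤ _ := card_le_card h4
  obtain ⟨P, f, hP, p1, p2, p3⟩ := hmat V G hg hd ⟨s e, d e, he, e, Or.inl ⟨rfl, rfl⟩⟩
  have h2 : ∀ x, ∃ g : E, x ∈ P → Jn s d g x (f x) := by
    intro x
    by_cases hx : x ∈ P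
    · obtain ⟨_, g, hg⟩ := p1 x hx
      exact ⟨g, fun _ => hg⟩
    · exact ⟨e, fun h => absurd h hx⟩
  choose g hgj using h2
  -- the ends of two of these edges are different
  have key : ∀ x ∈ P, ∀ y ∈ P, x ≠ y → s (g x) ≠ s (g y) ∧ s (g x) ≠ d (g y) ∧
      d (g x) ≠ s (g y) ∧ d (g x) ≠ d (g y) := by
    intro x hx y hy hxy
    have q1 := p2 x hx y hy hxy
    have q2 : x ≠ f y := fun h => p3 y hy (h ▸ hx)
    have q3 : f x ≠ y := fun h => p3 x hx (h ▸ hy)
    rcases hgj x hx with ⟨a, b⟩ | ⟨a, b⟩ <;> rcases hgj y hy with ⟨a', b'⟩ | ⟨a', b'⟩ <;>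
      rw [a, b, a', b']
    · exact ⟨hxy, q2, q3, q1⟩
    · exact ⟨q2, hxy, q1, q3⟩
    · exact ⟨q3, q1, hxy, q2⟩
    · exact ⟨q1, q3, q2, hxy⟩
  have hinj : Set.InjOn g (P : Set V) := by
    intro x hx y hy hxy
    by_contra hne
    exact (key x hx y hy hne).1 (by rw [hxy])
  have h3 := h1 (P.image g) ⟨fun a ha => ?_, fun a ha b hb hab => ?_⟩
  · rw [card_image_of_injOn hinj, hP] at h3
    omega
  · obtain ⟨x, hx, rfl⟩ := mem_image.1 ha
    exact jn_ne (p1 x hx).1 (hgj x hx)
  · obtain ⟨x, hx, rfl⟩ := mem_image.1 ha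
    obtain ⟨y, hy, rfl⟩ := mem_image.1 hb
    exact key x hx y hy (fun h => hab (by rw [h]))

end

end Pool.Agent.L0h99.OD
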