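import Pool.Agent.L0h99.OD.Cut
import Pool.Agent.Y335.FL.Order

set_option autoImplicit false
set_option linter.unusedSectionVars false

/-!
# Splitting off two edges at a vertex of degree at least four
-/

namespace Pool.Agent.L0h99.OD

open Finset Pool.Agent.TH676.Z Pool.Agent.Y335.FL Pool.Agent.Y358.IN

variable {V E : Type} [Fintype V] [DecidableEq V] [Fintype E] [DecidableEq E]

/-- the new first ends: `e1` becomes a loop at `x`, `e2` joins `u1` and `u2` -/
def s' (src : E → V) (e1 e2 : E) (x u1 : V) (e : E) : V :=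
  if e = e1 then x else if e = e2 then u1 else src e

/-- the new second ends -/
def d' (dst : E → V) (e1 e2 : E) (x u2 : V) (e : E) : V :=
  if e = e1 then x else if e = e2 then u2 else dst e

section

variable {src dst : E → V} {e1 e2 : E} {x u1 u2 : V}

/-- the data of a splitting -/
structure Sp (src dst : E → V) (e1 e2 : E) (x u1 u2 : V) : Prop where
  ne : e1 ≠ e2
  x1 : x ≠ u1
  x2 : x ≠ u2
  u12 : u1 ≠ u2
  j1 : Jn src dst e1 x u1
  j2 : Jn src dst e2 x u2

theorem s'_1 : s' src e1 e2 x u1 e1 = x := by simp [s']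

theorem d'_1 : d' dst e1 e2 x u2 e1 = x := by simp [d']

theorem s'_2 (h : e1 ≠ e2) : s' src e1 e2 x u1 e2 = u1 := by simp [s', h.symm]

theorem d'_2 (h : e1 ≠ e2) : d' dst e1 e2 x u2 e2 = u2 := by simp [d', h.symm]

theorem s'_o {e : E} (h1 : e ≠ e1) (h2 : e ≠ e2) : s' src e1 e2 x u1 e = src e := by
  simp [s', h1, h2]

theorem d'_o {e : E} (h1 : e ≠ e1) (h2 : e ≠ e2) : d' dst e1 e2 x u2 e = dst e := by
  simp [d', h1, h2]

/-- a flow after the splitting gives a flow before -/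
theorem flow_back (h : Sp src dst e1 e2 x u1 u2)
    (hf : FlowOn (s' src e1 e2 x u1) (d' dst e1 e2 x u2) ∅ ∅) : FlowOn src dst ∅ ∅ := by
  obtain ⟨f, hf0, _, hf2⟩ := hf
  have hc : f e2 ≠ 0 := hf2 e2 (notMem_empty _) (notMem_empty _)
  set g : E → ZMod 5 := fun e => if e = e1 then (if src e = u1 then f e2 else - f e2)
    else if e = e2 then (if src e = x then f e2 else - f e2) else f e with hg
  refine ⟨g, fun v => ?_, fun e he => absurd he (notMem_empty _), fun e _ _ => ?_⟩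
  · rw [← hf0 v]
    unfold bd
    have hne := h.ne
    have hsplit : ∀ F : E → ZMod 5, ∑ e, F e = F e1 + F e2 + ∑ e ∈ (univ.erase e1).erase e2, F e := by
      intro F
      rw [← add_sum_erase univ F (mem_univ e1),
        ← add_sum_erase (univ.erase e1) F (mem_erase.2 ⟨hne.symm, mem_univ e2⟩)]
      ring
    rw [hsplit, hsplit]
    congr 1
    · have g1 : g e1 = if src e1 = u1 then f e2 else - f e2 := by simp [hg]
      have g2 : g e2 = if src e2 = x then f e2 else - f e2 := by simp [hg, hne.symm]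
      rw [g1, g2, s'_1, d'_1, s'_2 hne, d'_2 hne]
      have hx1 := h.x1
      have hx2 := h.x2
      rcases h.j1 with ⟨a, b⟩ | ⟨a, b⟩ <;> rcases h.j2 with ⟨c, d⟩ | ⟨c, d⟩ <;>
        rw [a, b, c, d] <;>
        by_cases k0 : x = v <;> by_cases k1 : u1 = v <;> by_cases k2 : u2 = v <;>
        first
          | (exact absurd (k0.trans k1.symm) hx1)
          | (exact absurd (k0.trans k2.symm) hx2)
          | (exact absurd (k1.trans k2.symm) h.u12)
          | (simp [k0, k1, k2, hx1, hx2, hx1.symm, hx2.symm] <;> done)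
          | (subst k0; simp [hx1, hx2, hx1.symm, hx2.symm])
          | (subst k1; simp [hx1, hx2, hx1.symm, hx2.symm, k0, k2])
          | (subst k2; simp [hx1, hx2, hx1.symm, hx2.symm, k0, k1])
    · refine sum_congr rfl fun e he => ?_
      have k2 : e ≠ e2 := (mem_erase.1 he).1
      have k1 : e ≠ e1 := (mem_erase.1 (mem_erase.1 he).2).1
      rw [s'_o k1 k2, d'_o k1 k2]
      simp [hg, k1, k2]
  · rw [hg]
    simp only
    split_ifs
    · exact hc
    · exact neg_ne_zero.2 hc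
    · exact hc
    · exact neg_ne_zero.2 hc
    · exact hf2 e (notMem_empty _) (notMem_empty _)

/-- sums over the edges -/
theorem sum2 {R : Type} [AddCommMonoid R] (hne : e1 ≠ e2) (F : E → R) :
    ∑ e, F e = F e1 + (F e2 + ∑ e ∈ (univ.erase e1).erase e2, F e) := by
  rw [← add_sum_erase univ F (mem_univ e1),
    ← add_sum_erase (univ.erase e1) F (mem_erase.2 ⟨hne.symm, mem_univ e2⟩)]

theorem crs_card (src dst : E → V) (Y : Finset V) :
    (crs src dst Y).card = ∑ e, if ¬ (src e ∈ Y ↔ dst e ∈ Y) then 1 else 0 := by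
  unfold crs
  rw [card_filter]

theorem dg_card (src dst : E → V) (v : V) :
    dg src dst v = ∑ e, if (src e ≠ dst e ∧ (src e = v ∨ dst e = v)) then 1 else 0 := by
  unfold dg
  rw [card_filter]

/-- the edge cuts after the splitting -/
theorem crs_split (h : Sp src dst e1 e2 x u1 u2) (Y : Finset V) :
    (crs (s' src e1 e2 x u1) (d' dst e1 e2 x u2) Y).card = (crs src dst Y).card ∨
      ((u1 ∈ Y ↔ u2 ∈ Y) ∧ ¬ (x ∈ Y ↔ u1 ∈ Y) ∧
        (crs (s' src e1 e2 x u1) (d' dst e1 e2 x u2) Y).card + 2 = (crs src dst Y).card) := by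
  rw [crs_card, crs_card, sum2 h.ne, sum2 h.ne]
  have hr : ∑ e ∈ (univ.erase e1).erase e2, (if ¬ (s' src e1 e2 x u1 e ∈ Y ↔
      d' dst e1 e2 x u2 e ∈ Y) then 1 else 0) =
      ∑ e ∈ (univ.erase e1).erase e2, (if ¬ (src e ∈ Y ↔ dst e ∈ Y) then 1 else 0) := by
    refine sum_congr rfl fun e he => ?_
    have k2 : e ≠ e2 := (mem_erase.1 he).1
    have k1 : e ≠ e1 := (mem_erase.1 (mem_erase.1 he).2).1
    rw [s'_o k1 k2, d'_o k1 k2]
  rw [hr, s'_1, d'_1, s'_2 h.ne, d'_2 h.ne]
  have a1 : (if ¬ (src e1 ∈ Y ↔ dst e1 ∈ Y) then 1 else 0) = if ¬ (x ∈ Y ↔ u1 ∈ Y) then 1 else 0 := by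
    rcases h.j1 with ⟨a, b⟩ | ⟨a, b⟩
    · rw [a, b]
    · rw [a, b]; by_cases c1 : x ∈ Y <;> by_cases c2 : u1 ∈ Y <;> simp [c1, c2]
  have a2 : (if ¬ (src e2 ∈ Y ↔ dst e2 ∈ Y) then 1 else 0) = if ¬ (x ∈ Y ↔ u2 ∈ Y) then 1 else 0 := by
    rcases h.j2 with ⟨a, b⟩ | ⟨a, b⟩
    · rw [a, b]
    · rw [a, b]; by_cases c1 : x ∈ Y <;> by_cases c2 : u2 ∈ Y <;> simp [c1, c2]
  rw [a1, a2]
  generalize ∑ e ∈ (univ.erase e1).erase e2, (if ¬ (src e ∈ Y ↔ dst e ∈ Y) then 1 else 0) = R
  by_cases c0 : x ∈ Y <;> by_cases c1 : u1 ∈ Y <;> by_cases c2 : u2 ∈ Y <;>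
    simp [c0, c1, c2] <;> omega

/-- the degrees after the splitting -/
theorem dg_split (h : Sp src dst e1 e2 x u1 u2) (v : V) :
    dg (s' src e1 e2 x u1) (d' dst e1 e2 x u2) v + (if v = x then 2 else 0) = dg src dst v := by
  rw [dg_card, dg_card, sum2 h.ne, sum2 h.ne]
  have hr : ∑ e ∈ (univ.erase e1).erase e2, (if (s' src e1 e2 x u1 e ≠ d' dst e1 e2 x u2 e ∧
      (s' src e1 e2 x u1 e = v ∨ d' dst e1 e2 x u2 e = v)) then 1 else 0) =
      ∑ e ∈ (univ.erase e1).erase e2,
        (if (src e ≠ dst e ∧ (src e = v ∨ dst e = v)) then 1 else 0) := by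
    refine sum_congr rfl fun e he => ?_
    have k2 : e ≠ e2 := (mem_erase.1 he).1
    have k1 : e ≠ e1 := (mem_erase.1 (mem_erase.1 he).2).1
    rw [s'_o k1 k2, d'_o k1 k2]
  rw [hr, s'_1, d'_1, s'_2 h.ne, d'_2 h.ne]
  have hx1 := h.x1
  have hx2 := h.x2
  have h12 := h.u12
  have a1 : (if (src e1 ≠ dst e1 ∧ (src e1 = v ∨ dst e1 = v)) then 1 else 0) =
      if (x = v ∨ u1 = v) then 1 else 0 := by
    rcases h.j1 with ⟨a, b⟩ | ⟨a, b⟩
    · rw [a, b]; simp [hx1]
    · rw [a, b]; simp [hx1.symm, or_comm]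
  have a2 : (if (src e2 ≠ dst e2 ∧ (src e2 = v ∨ dst e2 = v)) then 1 else 0) =
      if (x = v ∨ u2 = v) then 1 else 0 := by
    rcases h.j2 with ⟨a, b⟩ | ⟨a, b⟩
    · rw [a, b]; simp [hx2]
    · rw [a, b]; simp [hx2.symm, or_comm]
  rw [a1, a2]
  generalize ∑ e ∈ (univ.erase e1).erase e2,
    (if (src e ≠ dst e ∧ (src e = v ∨ dst e = v)) then 1 else 0) = R
  by_cases k0 : x = v
  · subst k0
    simp [hx1.symm, hx2.symm]
    omega
  · by_cases k1 : u1 = v
    · subst k1
      simp [hx1, hx1.symm, h12.symm, h12]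
    · by_cases k2 : u2 = v
      · subst k2
        simp [hx2, hx2.symm, h12.symm, h12]
      · simp [k0, k1, k2, Ne.symm k0]

/-- the splitting has fewer proper edges -/
theorem nl_split (h : Sp src dst e1 e2 x u1 u2) :
    (Crit.nl (s' src e1 e2 x u1) (d' dst e1 e2 x u2)).card < (Crit.nl src dst).card := by
  refine card_lt_card ⟨fun e he => ?_, fun hs => ?_⟩
  · rw [Crit.mem_nl] at he ⊢
    by_cases k1 : e = e1
    · rw [k1, s'_1, d'_1] at he
      exact absurd rfl he
    · by_cases k2 : e = e2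
      · rw [k2]
        rcases h.j2 with ⟨a, b⟩ | ⟨a, b⟩
        · rw [a, b]; exact h.x2
        · rw [a, b]; exact h.x2.symm
      · rwa [s'_o k1 k2, d'_o k1 k2] at he
  · have h1 : e1 ∈ Crit.nl src dst := by
      rw [Crit.mem_nl]
      rcases h.j1 with ⟨a, b⟩ | ⟨a, b⟩
      · rw [a, b]; exact h.x1
      · rw [a, b]; exact h.x1.symm
    have h2 := hs h1
    rw [Crit.mem_nl, s'_1, d'_1] at h2
    exact h2 rfl

/-- the degree of the other vertices after a contraction -/
theorem dg_ctr_eq (src dst : E → V) {u v w : V} (hu : w ≠ u) (hv : w ≠ v) :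
    dg (ctr u v ∘ src) (ctr u v ∘ dst) w = dg src dst w := by
  unfold dg
  congr 1
  ext e
  simp only [mem_filter, mem_univ, true_and, Function.comp]
  have h1 : ∀ y : V, ctr u v y = w ↔ y = w := by
    intro y
    unfold ctr
    by_cases h : y = v
    · rw [if_pos h, h]
      exact ⟨fun h2 => absurd h2.symm hu, fun h2 => absurd h2.symm hv⟩
    · rw [if_neg h]
  rw [h1, h1]
  constructor
  · rintro ⟨h2, h3⟩
    exact ⟨fun h4 => h2 (by rw [h4]), h3⟩
  · rintro ⟨h2, h3⟩
    refine ⟨fun h4 => h2 ?_, h3⟩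
    rcases h3 with h3 | h3
    · have h5 := (h1 (src e)).2 h3
      rw [h5] at h4
      rw [h3, (h1 (dst e)).1 h4.symm]
    · have h5 := (h1 (dst e)).2 h3
      rw [h5] at h4
      rw [h3, (h1 (src e)).1 h4]

/-- the parity of the degree of the new vertex after a contraction -/
theorem dg_ctr_parity (src dst : E → V) {u v : V} (huv : u ≠ v) :
    (dg (ctr u v ∘ src) (ctr u v ∘ dst) u) % 2 = (dg src dst u + dg src dst v) % 2 := by
  have h1 : Ord.sg (ctr u v ∘ src) (ctr u v ∘ dst) u =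
      (Ord.sg src dst u ∪ Ord.sg src dst v) \ (Ord.sg src dst u ∩ Ord.sg src dst v) := by
    ext e
    rw [mem_sdiff, mem_union, mem_inter, Ord.mem_sg, Ord.mem_sg, Ord.mem_sg]
    simp only [Function.comp]
    have c1 : ∀ y : V, ctr u v y = u ↔ (y = u ∨ y = v) := by
      intro y
      unfold ctr
      by_cases h : y = v
      · rw [if_pos h]; exact ⟨fun _ => Or.inr h, fun _ => rfl⟩
      · rw [if_neg h]; exact ⟨Or.inl, fun h2 => h2.resolve_right h⟩
    have c2 : ctr u v (src e) = ctr u v (dst e) ↔ (src e = dst e ∨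
        ((src e = u ∨ src e = v) ∧ (dst e = u ∨ dst e = v))) := by
      constructor
      · intro h
        by_cases h2 : ctr u v (src e) = u
        · right
          exact ⟨(c1 _).1 h2, (c1 _).1 (by rw [← h]; exact h2)⟩
        · left
          have h3 : ctr u v (dst e) ≠ u := by rw [← h]; exact h2
          have h4 : src e ≠ v := fun h5 => h2 ((c1 _).2 (Or.inr h5))
          have h6 : dst e ≠ v := fun h5 => h3 ((c1 _).2 (Or.inr h5))
          unfold ctr at h
          rwa [if_neg h4, if_neg h6] at h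
      · rintro (h | ⟨h, h'⟩)
        · rw [h]
        · rw [(c1 _).2 h, (c1 _).2 h']
    rw [Ne, c2, c1, c1]
    have huv' := huv.symm
    by_cases k1 : src e = u <;> by_cases k2 : src e = v <;> by_cases k3 : dst e = u <;>
      by_cases k4 : dst e = v <;> simp_all
  rw [Ord.dg_eq, Ord.dg_eq, Ord.dg_eq, h1]
  have h2 := card_union_add_card_inter (Ord.sg src dst u) (Ord.sg src dst v)
  have h3 : (Ord.sg src dst u ∩ Ord.sg src dst v) ⊆ (Ord.sg src dst u ∪ Ord.sg src dst v) :=
    inter_subset_union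
  have h4 := card_sdiff_add_card_eq_card h3
  omega

end

end Pool.Agent.L0h99.OD
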